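import Pool.Agent.Helper2.LD.St1

/-!
# LD, module InvSym: the invariant is symmetric
-/

set_option autoImplicit false

namespace Pool.Agent.Helper7.LD

open Pool.Agent.Helper2.LD

private theorem same_symm {K : Type} {f g : Fb K} (h : Fb.same f g) : Fb.same g f := by
  cases f <;> cases g <;> simp only [Fb.same] at h ⊢
  · exact h.symm
  · exact h.symm
  · exact h.symm
  · exact h.symm
  · exact ⟨h.1.symm, h.2.1.symm, h.2.2.symm⟩

private theorem same_lf {K : Type} {f : Fb K} {κ : K} {c : Bool} {i : ℕ}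
    (h : Fb.same (Fb.lf κ c i) f) : ∃ c' i', f = Fb.lf κ c' i' := by
  cases f <;> simp only [Fb.same] at h
  subst h
  exact ⟨_, _, rfl⟩

theorem pInvSym : StInvSym := by
  intro K V V' k C S lab S' lab' r fl m1 m2 m3 q h
  have hm : ∀ a : FullV k C lab' × FullV k C lab,
      a ∈ q.map Prod.swap ++ [m3.swap, m2.swap, m1.swap] → a.swap ∈ q ++ [m3, m2, m1] := by
    intro a ha
    have : q.map Prod.swap ++ [m3.swap, m2.swap, m1.swap] =
        (q ++ [m3, m2, m1]).map Prod.swap := by simp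
    rw [this] at ha
    obtain ⟨b, hb, rfl⟩ := List.mem_map.1 ha
    rwa [Prod.swap_swap]
  have h1 : m1 ∈ q ++ [m3, m2, m1] := by simp
  have h2 : m2 ∈ q ++ [m3, m2, m1] := by simp
  have h3 : m3 ∈ q ++ [m3, m2, m1] := by simp
  have ho : ∀ a : FullV k C lab' × FullV k C lab,
      a ∈ q.map Prod.swap ++ [m3.swap, m2.swap, m1.swap] → ∀ b ∈ q ++ [m3, m2, m1],
      (own a.1 = own b.2 ↔ own a.2 = own b.1) := by
    intro a ha b hb
    exact (h.own a.swap (hm a ha) b hb).symm
  refine ⟨?_, ?_, ?_, ?_, ?_, ?_, ?_, ?_, ?_, ?_⟩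
  · simpa using h.len
  · intro a ha
    exact same_symm (h.same a.swap (hm a ha))
  · intro a ha b hb
    exact (h.own a.swap (hm a ha) b.swap (hm b hb)).symm
  · intro a ha b hb hab
    exact (h.gid a.swap (hm a ha) b.swap (hm b hb)
      ((h.own a.swap (hm a ha) b.swap (hm b hb)).2 hab)).symm
  · intro a ha b hb
    exact (h.eq a.swap (hm a ha) b.swap (hm b hb)).symm
  · intro a ha b hb d oa hoa ob hob hd
    refine (h.dist a.swap (hm a ha) b.swap (hm b hb) d oa ?_ ob ?_ hd).symm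
    · rcases hoa with hoa | hoa
      · exact Or.inl hoa
      · exact Or.inr fun hh => hoa ⟨hh.1, (ho a ha m3 h3).2 hh.2⟩
    · rcases hob with hob | hob
      · exact Or.inl hob
      · exact Or.inr fun hh => hob ⟨hh.1, (ho b hb m3 h3).2 hh.2⟩
  · intro a ha
    exact (h.ht a.swap (hm a ha)).symm
  · intro a ha hc
    have hc' : own a.2 = own m1.1 ∨ own a.2 = own m2.1 := by
      rcases hc with hc | hc
      · exact Or.inl ((ho a ha m1 h1).1 hc)
      · exact Or.inr ((ho a ha m2 h2).1 hc)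
    have h4 := h.ex a.swap (hm a ha) hc'
    exact ⟨h4.1.symm, h4.2.symm⟩
  · intro κ c i hc c' i' hc'
    exact (h.m3l κ c' i' hc' c i hc).symm
  · intro hfl
    obtain ⟨⟨κ, c, i, h4⟩, h5, h6, h7⟩ := h.fl hfl
    refine ⟨?_, ?_, ?_, ?_⟩
    · have h8 := h.same m3 h3
      rw [h4] at h8
      obtain ⟨c', i', h9⟩ := same_lf h8
      exact ⟨κ, c', i', h9⟩
    · intro a ha hc
      have h8 : a.swap = m3 := h5 a.swap (hm a ha) ((ho a ha m3 h3).1 hc)
      rw [← h8, Prod.swap_swap]
    · intro hc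
      exact h6 ((h.own m3 h3 m1 h1).2 hc)
    · intro hc
      exact h7 ((h.own m3 h3 m2 h2).2 hc)

end Pool.Agent.Helper7.LD
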