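import Pool.Agent.Helper2.LD.St2b

/-!
# LD, module Is: sorts in the full graph
-/

set_option autoImplicit false

namespace Pool.Agent.Helper7.LD

open Pool.Agent.Helper2.LD

private theorem okpar_Is {K : Type} {m : ℕ} {code : K → Finset ℕ} {L : Finset K} {f : Fb K}
    (h : Fb.ok m code L f) : Fb.ok m code L (Fb.par f) := by
  cases f with
  | root => exact h
  | a1 κ c => trivial
  | a2 κ c => trivial
  | r κ c => trivial
  | lf κ c i => trivial
  | mk κ c i j =>
    simp only [Fb.par]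
    split_ifs with h1
    · trivial
    · obtain ⟨h2, h3, h4⟩ := h
      exact ⟨h2, by omega, by omega⟩

section

variable {K V : Type} {k : ℕ} {C : KCode k K} {S : SimpleGraph V} {lab : V → Finset K}

private theorem mkv_Is (v : FullV k C lab) (f : Fb K)
    (h : Fb.ok (MM k) C.code (brL lab (own v)) f) : ∃ u : FullV k C lab, own u = own v ∧ fb u = f :=
  ⟨⟨(own v, f), h⟩, rfl, rfl⟩

private theorem okv_Is (v : FullV k C lab) : Fb.ok (MM k) C.code (brL lab (own v)) (fb v) := v.2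

/-- adjacency if one end is not a root -/
private theorem adj_Is {u v : FullV k C lab} (h : (full k C S lab).Adj u v)
    (h0 : fb u ≠ Fb.root ∨ fb v ≠ Fb.root) : own u = own v ∧ Fb.adj (fb u) (fb v) := by
  rcases h with ⟨_, h1, h2⟩ | h
  · rcases h0 with h0 | h0
    · exact absurd h1 h0
    · exact absurd h2 h0
  · exact h

private theorem par_Is (v : FullV k C lab) (h0 : fb v ≠ Fb.root) :
    ∃ u : FullV k C lab, own u = own v ∧ fb u = Fb.par (fb v) ∧ (full k C S lab).Adj v u := by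
  obtain ⟨u, h1, h2⟩ := mkv_Is v (Fb.par (fb v)) (okpar_Is (okv_Is v))
  refine ⟨u, h1, h2, Or.inr ⟨h1.symm, Or.inl ⟨h0, h2⟩⟩⟩

variable [Fintype K] [DecidableEq K]

private theorem knd_Is (H1 : StIs1) (H2 : StIs2) (hk : 40 ≤ k) (hK : k + 8 ≤ Fintype.card K)
    (κ : K) (v : FullV k C lab) :
    Knd k (full k C S lab) (C.code κ) v ↔ ∃ c, fb v = Fb.a1 κ c := by
  have hleaf : ∀ (κ' : K) (c' : Bool), fb v = Fb.a1 κ' c' → ∀ i, 5 ≤ i →
      ((∃ z, Leaf (full k C S lab) z ∧ RW (full k C S lab) i v z ∧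
        ¬ RW (full k C S lab) (i - 1) v z) ↔ i ∈ C.code κ') := by
    intro κ' c' hv i hi
    constructor
    · rintro ⟨z, hz, h3, h4⟩
      have h5 := (H1 k hk hK C S lab z).1.1 hz
      have h6 : fb z ≠ Fb.root := by
        rcases h5 with ⟨a, b, c, e⟩ | ⟨a, b, c, e⟩ <;> rw [e] <;> simp
      rw [(H2 k hk hK C S lab v z i κ' c' h6).1 hv] at h3
      rw [(H2 k hk hK C S lab v z (i - 1) κ' c' h6).1 hv] at h4
      obtain ⟨g1, g2, g3⟩ := h3
      have g4 : ¬ gd (fb z) ≤ i - 1 := fun h => h4 ⟨g1, g2, h⟩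
      rcases h5 with ⟨a, b, c, e⟩ | ⟨a, b, c, e⟩
      · rw [e] at g3 g4
        simp only [gd] at g3 g4
        omega
      · have hok := okv_Is z
        rw [e] at g2 g3 g4 hok
        simp only [gd] at g3 g4
        simp only [Fb.gid, Option.some.injEq, Prod.mk.injEq] at g2
        obtain ⟨hok1, -, -⟩ := hok
        have h7 : c = i := by omega
        rw [← h7, ← g2.1]
        exact hok1
    · intro hi'
      obtain ⟨z, h1, h2⟩ := mkv_Is v (Fb.mk κ' c' i i) ⟨hi', by omega, le_rfl⟩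
      have h6 : fb z ≠ Fb.root := by rw [h2]; simp
      refine ⟨z, (H1 k hk hK C S lab z).1.2 (Or.inr ⟨κ', c', i, h2⟩), ?_, ?_⟩
      · rw [(H2 k hk hK C S lab v z i κ' c' h6).1 hv]
        refine ⟨h1, ?_, ?_⟩
        · rw [h2]; rfl
        · rw [h2]; exact le_rfl
      · rw [(H2 k hk hK C S lab v z (i - 1) κ' c' h6).1 hv]
        rintro ⟨-, -, h7⟩
        rw [h2] at h7
        simp only [gd] at h7
        omega
  constructor
  · rintro ⟨hA, hX⟩
    obtain ⟨κ', c', hv⟩ := (H1 k hk hK C S lab v).2.2.2.1.1 hA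
    have hcode : C.code κ = C.code κ' := by
      ext i
      constructor
      · intro hi
        obtain ⟨h5, h6⟩ := C.rng κ i hi
        exact (hleaf κ' c' hv i h5).1 ((hX i h5 h6).1 hi)
      · intro hi
        obtain ⟨h5, h6⟩ := C.rng κ' i hi
        exact (hX i h5 h6).2 ((hleaf κ' c' hv i h5).2 hi)
    have := C.inj hcode
    subst this
    exact ⟨c', hv⟩
  · rintro ⟨c, hv⟩
    refine ⟨(H1 k hk hK C S lab v).2.2.2.1.2 ⟨κ, c, hv⟩, fun i h5 _ => ?_⟩
    exact (hleaf κ c hv i h5).symm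

/-- the chain `u` (sort `a2`), `a` (kind `κ`) above a vertex of sort `r` -/
private theorem chainR_Is (H1 : StIs1) (H2 : StIs2) (hk : 40 ≤ k) (hK : k + 8 ≤ Fintype.card K)
    (κ κ' : K) (c' : Bool) (v : FullV k C lab) (hv : fb v = Fb.r κ' c') :
    (∃ u, (full k C S lab).Adj v u ∧ A2v (full k C S lab) u ∧ ∃ a, (full k C S lab).Adj u a ∧
      Knd k (full k C S lab) (C.code κ) a) ↔ κ = κ' := by
  constructor
  · rintro ⟨u, h1, h2, a, h3, h4⟩
    obtain ⟨κ2, c2, hu⟩ := (H1 k hk hK C S lab u).2.2.1.1 h2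
    obtain ⟨c3, ha⟩ := (knd_Is H1 H2 hk hK κ a).1 h4
    have e1 := (adj_Is h1 (Or.inl (by rw [hv]; simp))).2
    have e2 := (adj_Is h3 (Or.inl (by rw [hu]; simp))).2
    rw [hv, hu] at e1
    rw [hu, ha] at e2
    simp only [Fb.adj, Fb.par, ne_eq, reduceCtorEq, not_false_eq_true, true_and, Fb.a2.injEq,
      Fb.a1.injEq, and_false, or_false] at e1 e2
    exact e2.1.trans e1.1
  · rintro rfl
    obtain ⟨u, h1, h2, h3⟩ := par_Is (S := S) v (by rw [hv]; simp)
    rw [hv] at h2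
    obtain ⟨a, h4, h5, h6⟩ := par_Is (S := S) u (by rw [h2]; simp [Fb.par])
    rw [h2] at h5
    exact ⟨u, h3, (H1 k hk hK C S lab u).2.2.1.2 ⟨κ, c', h2⟩, a, h6,
      (knd_Is H1 H2 hk hK κ a).2 ⟨c', h5⟩⟩

end

theorem pIs (H1 : StIs1) (H2 : StIs2) : StIs := by
  intro K V _ _ k hk hK C S lab v c hc
  obtain ⟨hL, hR, hA2, hA1, hP⟩ := H1 k hk hK C S lab v
  have noR : ∀ z : FullV k C lab, (∃ κ c i j, fb z = Fb.mk κ c i j) →
      ¬ ∃ u, (full k C S lab).Adj z u ∧ Rv (full k C S lab) u := by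
    rintro z ⟨κ, c, i, j, hz⟩ ⟨u, h1, h2⟩
    obtain ⟨κ', c', hu⟩ := (H1 k hk hK C S lab u).2.1.1 h2
    have e1 := (adj_Is h1 (Or.inl (by rw [hz]; simp))).2
    rw [hz, hu] at e1
    rcases e1 with ⟨-, e1⟩ | ⟨-, e1⟩
    · simp only [Fb.par] at e1
      split_ifs at e1
    · simp [Fb.par] at e1
  have yesR : ∀ z : FullV k C lab, (∃ κ c i, fb z = Fb.lf κ c i) →
      ∃ u, (full k C S lab).Adj z u ∧ Rv (full k C S lab) u := by
    rintro z ⟨κ, c, i, hz⟩
    obtain ⟨u, h1, h2, h3⟩ := par_Is (S := S) z (by rw [hz]; simp)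
    rw [hz] at h2
    exact ⟨u, h3, (H1 k hk hK C S lab u).2.1.2 ⟨κ, c, h2⟩⟩
  cases c with
  | pl =>
    simp only [Is]
    rw [hP]
    constructor
    · intro h; rw [h]; rfl
    · intro h
      cases hf : fb v <;> rw [hf] at h <;> simp [clOf] at h
  | a1 κ =>
    simp only [Is]
    rw [knd_Is H1 H2 hk hK κ v]
    constructor
    · rintro ⟨c, h⟩; rw [h]; rfl
    · intro h
      cases hf : fb v <;> rw [hf] at h <;> simp [clOf] at h
      subst h
      exact ⟨_, rfl⟩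
  | a2 κ =>
    simp only [Is]
    rw [hA2]
    constructor
    · rintro ⟨⟨κ', c', h⟩, u, h1, h2⟩
      obtain ⟨c, hu⟩ := (knd_Is H1 H2 hk hK κ u).1 h2
      have e1 := (adj_Is h1 (Or.inl (by rw [h]; simp))).2
      rw [h, hu] at e1
      simp only [Fb.adj, Fb.par, ne_eq, reduceCtorEq, not_false_eq_true, true_and,
        Fb.a1.injEq, and_false, or_false] at e1
      rw [h, e1.1]; rfl
    · intro h
      cases hf : fb v <;> rw [hf] at h <;> simp [clOf] at h
      subst h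
      obtain ⟨u, h1, h2, h3⟩ := par_Is (S := S) v (by rw [hf]; simp)
      rw [hf] at h2
      exact ⟨⟨_, _, rfl⟩, u, h3, (knd_Is H1 H2 hk hK κ u).2 ⟨_, h2⟩⟩
  | r κ =>
    simp only [Is]
    rw [hR]
    constructor
    · rintro ⟨⟨κ', c', h⟩, h1⟩
      rw [chainR_Is H1 H2 hk hK κ κ' c' v h] at h1
      rw [h, h1]; rfl
    · intro h
      cases hf : fb v <;> rw [hf] at h <;> simp [clOf] at h
      subst h
      exact ⟨⟨_, _, rfl⟩, (chainR_Is H1 H2 hk hK κ κ _ v hf).2 rfl⟩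
  | l κ =>
    simp only [Is]
    rw [hL]
    constructor
    · rintro ⟨h, z, h1, h2, h3⟩
      obtain ⟨κ2, c2, hz⟩ := (H1 k hk hK C S lab z).2.1.1 h2
      rw [chainR_Is H1 H2 hk hK κ κ2 c2 z hz] at h3
      subst h3
      rcases h with ⟨κ', c', i, h⟩ | ⟨κ', c', i, h⟩
      · have e1 := (adj_Is h1 (Or.inl (by rw [h]; simp))).2
        rw [h, hz] at e1
        simp only [Fb.adj, Fb.par, ne_eq, reduceCtorEq, not_false_eq_true, true_and,
          Fb.r.injEq, and_false, or_false] at e1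
        rw [h, e1.1]; rfl
      · exact absurd ⟨z, h1, h2⟩ (noR v ⟨κ', c', i, i, h⟩)
    · intro h
      cases hf : fb v <;> rw [hf] at h <;> simp [clOf] at h
      subst h
      obtain ⟨z, h1, h2, h3⟩ := par_Is (S := S) v (by rw [hf]; simp)
      rw [hf] at h2
      exact ⟨Or.inl ⟨_, _, _, rfl⟩, z, h3, (H1 k hk hK C S lab z).2.1.2 ⟨κ, _, h2⟩,
        (chainR_Is H1 H2 hk hK κ κ _ z h2).2 rfl⟩
  | m κ i j =>
    obtain ⟨hi, hj1, hj2⟩ := hc
    simp only [Is]
    constructor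
    · rintro ⟨n1, n2, n3, n4, n5, a, ha, hj, hj', z, hz, nz, hi1, hi2, hr1, -⟩
      obtain ⟨c, hac⟩ := (knd_Is H1 H2 hk hK κ a).1 ha
      rw [hP] at n1
      rw [hA1] at n2
      rw [hA2] at n3
      rw [hR] at n4
      have hvm : ∃ κ' c' i' j', fb v = Fb.mk κ' c' i' j' := by
        cases hf : fb v with
        | root => exact absurd hf n1
        | a1 κ c => exact absurd ⟨κ, c, hf⟩ n2
        | a2 κ c => exact absurd ⟨κ, c, hf⟩ n3
        | r κ c => exact absurd ⟨κ, c, hf⟩ n4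
        | lf κ c i => exact absurd (yesR v ⟨κ, c, i, hf⟩) n5
        | mk κ c i j => exact ⟨κ, c, i, j, rfl⟩
      obtain ⟨κ', c', i', j', hv⟩ := hvm
      rw [(H2 k hk hK C S lab a v j κ c n1).1 hac] at hj
      rw [(H2 k hk hK C S lab a v (j - 1) κ c n1).1 hac] at hj'
      obtain ⟨g1, g2, g3⟩ := hj
      have g4 : ¬ gd (fb v) ≤ j - 1 := fun h => hj' ⟨g1, g2, h⟩
      rw [hv] at g2 g3 g4
      simp only [gd] at g3 g4
      simp only [Fb.gid, Option.some.injEq, Prod.mk.injEq] at g2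
      obtain ⟨rfl, rfl⟩ := g2
      have hjj : j' = j := by omega
      subst hjj
      have hzm : ∃ κ' c' i', fb z = Fb.mk κ' c' i' i' := by
        rcases (H1 k hk hK C S lab z).1.1 hz with h | h
        · exact absurd (yesR z h) nz
        · exact h
      obtain ⟨κ2, c2, i2, hz2⟩ := hzm
      have hz0 : fb z ≠ Fb.root := by rw [hz2]; simp
      rw [(H2 k hk hK C S lab a z i κ' c' hz0).1 hac] at hi1
      rw [(H2 k hk hK C S lab a z (i - 1) κ' c' hz0).1 hac] at hi2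
      obtain ⟨f1, f2, f3⟩ := hi1
      have f4 : ¬ gd (fb z) ≤ i - 1 := fun h => hi2 ⟨f1, f2, h⟩
      rw [hz2] at f2 f3 f4
      simp only [gd] at f3 f4
      simp only [Fb.gid, Option.some.injEq, Prod.mk.injEq] at f2
      obtain ⟨rfl, rfl⟩ := f2
      have hii : i2 = i := by omega
      subst hii
      rw [(H2 k hk hK C S lab v z (i2 - j') κ2 c2 hz0).2 i' j' i2 hv hz2 (g1.trans f1.symm)] at hr1
      have h9 : i' = i2 := by
        rcases hr1 with h | h
        · exact h.1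
        · omega
      subst h9
      rw [hv]; rfl
    · intro h
      cases hf : fb v <;> rw [hf] at h <;> simp [clOf] at h
      rename_i κ' c i' j'
      obtain ⟨rfl, rfl, rfl⟩ := h
      obtain ⟨a, ha1, ha2⟩ := mkv_Is v (Fb.a1 κ c) trivial
      obtain ⟨z, hz1, hz2⟩ := mkv_Is v (Fb.mk κ c i i) ⟨hi, by omega, le_rfl⟩
      have hv0 : fb v ≠ Fb.root := by rw [hf]; simp
      have hz0 : fb z ≠ Fb.root := by rw [hz2]; simp
      rw [hP, hA1, hA2, hR]
      refine ⟨hv0, ?_, ?_, ?_, noR v ⟨κ, c, i, j, hf⟩, a,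
        (knd_Is H1 H2 hk hK κ a).2 ⟨c, ha2⟩, ?_, ?_, z,
        (H1 k hk hK C S lab z).1.2 (Or.inr ⟨κ, c, i, hz2⟩), noR z ⟨κ, c, i, i, hz2⟩, ?_, ?_, ?_, ?_⟩
      · rw [hf]; simp
      · rw [hf]; simp
      · rw [hf]; simp
      · rw [(H2 k hk hK C S lab a v j κ c hv0).1 ha2, hf]
        exact ⟨ha1.symm, rfl, le_rfl⟩
      · rw [(H2 k hk hK C S lab a v (j - 1) κ c hv0).1 ha2, hf]
        rintro ⟨-, -, h7⟩
        simp only [gd] at h7
        omega
      · rw [(H2 k hk hK C S lab a z i κ c hz0).1 ha2, hz2]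
        exact ⟨hz1.trans ha1.symm, rfl, le_rfl⟩
      · rw [(H2 k hk hK C S lab a z (i - 1) κ c hz0).1 ha2, hz2]
        rintro ⟨-, -, h7⟩
        simp only [gd] at h7
        omega
      · rw [(H2 k hk hK C S lab v z (i - j) κ c hz0).2 i j i hf hz2 hz1.symm]
        exact Or.inl ⟨rfl, le_rfl⟩
      · by_cases hij : i = j
        · exact Or.inl hij
        · right
          rw [(H2 k hk hK C S lab v z (i - j - 1) κ c hz0).2 i j i hf hz2 hz1.symm]
          rintro (⟨-, h7⟩ | ⟨h7, -⟩)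
          · omega
          · exact h7 rfl

end Pool.Agent.Helper7.LD
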